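import Pool.Agent.Q117.SI.All4

/-!
# MP_b8a134_nt (primes between `x` and `x + √x`): every admissible pattern in every interval

For EVERY large real `x` and every admissible pattern `e` of length at most `√x / 2` (the pattern may depend on `x`) there are
`≫ √x V(e)` translates `n + e` inside `(x, x + √x)` all of whose members are rough, one prescribed member being a product of at most three
primes, and such that no other rough integer is near. The same for the simultaneous offsets in `k` windows of length `√x`.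
-/

set_option autoImplicit false

namespace Pool.Agent.Results.MP_b8a134_nt.EveryPattern

open Finset Filter
open Pool.Agent.Q117.LF (Ro)
open Pool.Agent.Q117.SI

/-- the integers `n` such that all the `n + e l` lie in `(x, x + √x)`, all are rough (no prime factor `≤ z`), `n + e i` is a product of at most three primes, all `≥ w`, and every rough integer at distance `≤ L` from one of the `n + e l` is one of them -/
def Good {k : ℕ} (x : ℝ) (e : Fin k → ℕ) (i : Fin k) (w z L : ℝ) : Set ℕ :=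
  {n : ℕ | (∀ l, x < n + e l ∧ (n : ℝ) + e l < x + √x) ∧ (n + e i).primeFactorsList.length ≤ 3 ∧ (∀ p : ℕ, p.Prime → p ∣ n + e i → w ≤ p) ∧
    (∀ l, Ro z ((n + e l : ℕ) : ℤ)) ∧ ∀ l, ∀ s : ℤ, |(s : ℝ)| ≤ L → Ro z ((n + e l : ℕ) + s) → ∃ l', (e l' : ℤ) = e l + s}

theorem rho_shift {k : ℕ} (e : Fin k → ℕ) (a p : ℕ) : rhoU (fun l => a + e l) p = rhoU e p := by
  classical
  unfold rhoU
  have h1 : univ.image (fun l => (a + e l) % p) = (univ.image (fun l => e l % p)).image (fun r => (a + r) % p) := by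
    rw [image_image]
    apply image_congr
    intro l _
    simp [Function.comp, Nat.add_mod]
  rw [h1]
  apply card_image_of_injOn
  intro r hr r' hr' hrr
  simp only [coe_image, Set.mem_image] at hr hr'
  obtain ⟨l, _, rfl⟩ := hr
  obtain ⟨l', _, rfl⟩ := hr'
  have h2 : a + e l % p ≡ a + e l' % p [MOD p] := hrr
  have h3 := Nat.ModEq.add_left_cancel' a h2
  have h4 : (e l % p) % p = (e l' % p) % p := h3
  rwa [Nat.mod_mod, Nat.mod_mod] at h4

theorem main (hS : SIMc) (k : ℕ) : ∃ t : ℕ, 1 ≤ t ∧ ∃ c : ℝ, 0 < c ∧ ∃ ν : ℝ, 0 < ν ∧ ∃ x₀ : ℝ, ∀ x : ℝ, x₀ ≤ x →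
    (∀ e : Fin k → ℕ, (∀ l, (e l : ℝ) ≤ √x / 2) → (∀ p : ℕ, p.Prime → rhoU e p < p) → ∀ i : Fin k,
      c * (√x * densU e (2 * x)) ≤ ((Good x e i (x ^ (2 / 25 : ℝ)) ((2 * x) ^ (1 / (t : ℝ))) (ν * Real.log (2 * x))).ncard : ℝ)) ∧
    ∀ u : Fin k → ℕ, (∀ l, (u l : ℝ) ≤ 2 * x) → (∀ p : ℕ, p.Prime → rhoU u p < p) → ∀ i : Fin k,
      c * (√x * densU u (2 * x)) ≤ ((Off u i 3 (x ^ (2 / 25 : ℝ)) ((2 * x) ^ (1 / (t : ℝ))) (ν * Real.log (2 * x)) ⌊√x⌋₊).card : ℝ) := by
  classical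
  obtain ⟨t, ht, c, hc, ν, hν, X0, H⟩ := hS k 3 (49 / 100) (by norm_num) (by norm_num) (by norm_num)
  have e1 : ∀ᶠ x : ℝ in atTop, (2 * x) ^ (49 / 100 : ℝ) ≤ √x / 4 := by
    have h1 : Tendsto (fun x : ℝ => x ^ (1 / 100 : ℝ)) atTop atTop := tendsto_rpow_atTop (by norm_num)
    filter_upwards [h1.eventually_ge_atTop 8, eventually_ge_atTop (1 : ℝ)] with x hx hx1
    have hx0 : 0 < x := by linarith
    rw [Real.mul_rpow (by norm_num) hx0.le, Real.sqrt_eq_rpow]
    have h2 : (2 : ℝ) ^ (49 / 100 : ℝ) ≤ 2 := by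
      calc (2 : ℝ) ^ (49 / 100 : ℝ) ≤ (2 : ℝ) ^ (1 : ℝ) := Real.rpow_le_rpow_of_exponent_le (by norm_num) (by norm_num)
        _ = 2 := Real.rpow_one _
    have h3 : x ^ (1 / 2 : ℝ) = x ^ (49 / 100 : ℝ) * x ^ (1 / 100 : ℝ) := by
      rw [← Real.rpow_add hx0]
      norm_num
    rw [h3]
    have h4 : 0 < x ^ (49 / 100 : ℝ) := Real.rpow_pos_of_pos hx0 _
    nlinarith
  obtain ⟨x1, hx1⟩ := eventually_atTop.1 (e1.and (eventually_ge_atTop (100 : ℝ)))
  refine ⟨t, ht, c / 4, by positivity, ν, hν, max X0 x1, ?_⟩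
  intro x hx
  obtain ⟨y1, y2⟩ := hx1 x ((le_max_right _ _).trans hx)
  have hxX : X0 ≤ 2 * x := by
    have := (le_max_left X0 x1).trans hx
    linarith
  have hx0 : 0 < x := by linarith
  have hsq : (10 : ℝ) ≤ √x := by
    rw [show (10 : ℝ) = √100 by rw [show (100 : ℝ) = 10 ^ 2 by norm_num, Real.sqrt_sq (by norm_num)]]
    exact Real.sqrt_le_sqrt y2
  have hsx : √x ≤ x := by
    rw [Real.sqrt_le_left hx0.le]
    nlinarith
  have hdens : ∀ u : Fin k → ℕ, (∀ p : ℕ, p.Prime → rhoU u p < p) → 0 ≤ densU u (2 * x) := by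
    intro u hu
    unfold densU
    apply prod_nonneg
    intro p hp
    rw [mem_filter] at hp
    have h1 : (rhoU u p : ℝ) ≤ p := by exact_mod_cast (hu p hp.2).le
    have h2 : (0 : ℝ) < p := by exact_mod_cast hp.2.pos
    rw [sub_nonneg, div_le_one h2]
    exact h1
  have hw : x ^ (2 / 25 : ℝ) ≤ (2 * x) ^ ((49 / 100 : ℝ) / 6) := by
    calc x ^ (2 / 25 : ℝ) ≤ (2 * x) ^ (2 / 25 : ℝ) := Real.rpow_le_rpow hx0.le (by linarith) (by norm_num)
      _ ≤ _ := Real.rpow_le_rpow_of_exponent_le (by linarith) (by norm_num)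
  constructor
  · intro e he hadm i
    -- the window
    set a : ℕ := ⌊x⌋₊ with ha
    have ha1 : (a : ℝ) ≤ x := Nat.floor_le hx0.le
    have ha2 : x < a + 1 := Nat.lt_floor_add_one x
    set Hn : ℕ := ⌊√x / 2⌋₊ - 1 with hHn
    have hfl : √x / 2 < (⌊√x / 2⌋₊ : ℝ) + 1 := Nat.lt_floor_add_one _
    have hfl2 : (⌊√x / 2⌋₊ : ℝ) ≤ √x / 2 := Nat.floor_le (by positivity)
    have hfl1 : 1 ≤ ⌊√x / 2⌋₊ := by
      have : (1 : ℝ) < (⌊√x / 2⌋₊ : ℝ) + 1 := by linarith
      have : (0 : ℝ) < (⌊√x / 2⌋₊ : ℝ) := by linarith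
      exact_mod_cast this
    have hHr : (Hn : ℝ) = (⌊√x / 2⌋₊ : ℝ) - 1 := by
      rw [hHn, Nat.cast_sub hfl1]
      norm_num
    have hH1 : √x / 4 ≤ Hn := by
      rw [hHr]
      linarith
    have h := H (2 * x) hxX (fun l => a + e l) (fun l => by
      have := he l
      push_cast
      linarith) (fun p hp => by rw [rho_shift]; exact hadm p hp) i Hn (y1.trans hH1) (by rw [hHr]; linarith)
    have hd : densU (fun l => a + e l) (2 * x) = densU e (2 * x) := by
      unfold densU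
      apply prod_congr rfl
      intro p _
      rw [rho_shift]
    rw [hd] at h
    have h2 : c / 4 * (√x * densU e (2 * x)) ≤ c * (Hn * densU e (2 * x)) := by
      have h3 := hdens e hadm
      have h4 : √x / 4 * densU e (2 * x) ≤ Hn * densU e (2 * x) := mul_le_mul_of_nonneg_right hH1 h3
      have h5 := mul_le_mul_of_nonneg_left h4 hc.le
      linarith
    refine h2.trans (h.trans ?_)
    have hfin : (Good x e i (x ^ (2 / 25 : ℝ)) ((2 * x) ^ (1 / (t : ℝ))) (ν * Real.log (2 * x))).Finite := by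
      apply (Set.finite_Iic ⌊x + √x⌋₊).subset
      intro n hn
      have h6 := (hn.1 i).2
      rw [Set.mem_Iic]
      apply Nat.le_floor
      have : (0 : ℝ) ≤ e i := by positivity
      linarith
    have hsub : ((Off (fun l => a + e l) i 3 ((2 * x) ^ ((49 / 100 : ℝ) / 6)) ((2 * x) ^ (1 / (t : ℝ))) (ν * Real.log (2 * x)) Hn).image
        (fun m => a + m) : Set ℕ) ⊆ Good x e i (x ^ (2 / 25 : ℝ)) ((2 * x) ^ (1 / (t : ℝ))) (ν * Real.log (2 * x)) := by
      intro n hn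
      rw [mem_coe, mem_image] at hn
      obtain ⟨m, hm, rfl⟩ := hn
      unfold Off at hm
      rw [mem_filter, mem_Icc] at hm
      obtain ⟨⟨m1, m2⟩, m3, m4, m5, m6⟩ := hm
      have ecomm : ∀ l, a + m + e l = a + e l + m := fun l => by ring
      have m2' : (m : ℝ) ≤ Hn := by exact_mod_cast m2
      have m1' : (1 : ℝ) ≤ m := by exact_mod_cast m1
      refine ⟨fun l => ⟨?_, ?_⟩, ?_, ?_, ?_, ?_⟩
      · have : (0 : ℝ) ≤ e l := by positivity
        push_cast
        linarith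
      · have := he l
        push_cast
        rw [hHr] at m2'
        linarith
      · rw [ecomm]; exact m3
      · intro p hp hd
        rw [ecomm] at hd
        exact hw.trans (m4 p hp hd)
      · intro l
        rw [ecomm]
        exact m5 l
      · intro l s hs hr
        rw [ecomm] at hr
        obtain ⟨l', hl'⟩ := m6 l s hs hr
        refine ⟨l', ?_⟩
        push_cast at hl'
        linarith
    have h7 := Set.ncard_le_ncard hsub hfin
    rw [Set.ncard_coe_finset, card_image_of_injective _ (add_right_injective a)] at h7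
    exact_mod_cast h7
  · intro u hu hadm i
    have hfl : √x < (⌊√x⌋₊ : ℝ) + 1 := Nat.lt_floor_add_one _
    have hfl2 : (⌊√x⌋₊ : ℝ) ≤ √x := Nat.floor_le (by positivity)
    have h := H (2 * x) hxX u hu hadm i ⌊√x⌋₊ (by linarith) (by linarith)
    have h3 := hdens u hadm
    have h4 : √x / 4 * densU u (2 * x) ≤ ⌊√x⌋₊ * densU u (2 * x) := mul_le_mul_of_nonneg_right (by linarith) h3
    have h5 := mul_le_mul_of_nonneg_left h4 hc.le
    have h6 : c / 4 * (√x * densU u (2 * x)) ≤ c * (⌊√x⌋₊ * densU u (2 * x)) := by linarith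
    refine h6.trans (h.trans ?_)
    have h7 : Off u i 3 ((2 * x) ^ ((49 / 100 : ℝ) / 6)) ((2 * x) ^ (1 / (t : ℝ))) (ν * Real.log (2 * x)) ⌊√x⌋₊ ⊆
        Off u i 3 (x ^ (2 / 25 : ℝ)) ((2 * x) ^ (1 / (t : ℝ))) (ν * Real.log (2 * x)) ⌊√x⌋₊ := by
      intro m hm
      unfold Off at hm ⊢
      rw [mem_filter] at hm ⊢
      exact ⟨hm.1, hm.2.1, fun p hp hd => hw.trans (hm.2.2.1 p hp hd), hm.2.2.2.1, hm.2.2.2.2⟩
    exact_mod_cast card_le_card h7

theorem result (k : ℕ) : ∃ t : ℕ, 1 ≤ t ∧ ∃ c : ℝ, 0 < c ∧ ∃ ν : ℝ, 0 < ν ∧ ∃ x₀ : ℝ, ∀ x : ℝ, x₀ ≤ x →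
    (∀ e : Fin k → ℕ, (∀ l, (e l : ℝ) ≤ √x / 2) → (∀ p : ℕ, p.Prime → rhoU e p < p) → ∀ i : Fin k,
      c * (√x * densU e (2 * x)) ≤ ((Good x e i (x ^ (2 / 25 : ℝ)) ((2 * x) ^ (1 / (t : ℝ))) (ν * Real.log (2 * x))).ncard : ℝ)) ∧
    ∀ u : Fin k → ℕ, (∀ l, (u l : ℝ) ≤ 2 * x) → (∀ p : ℕ, p.Prime → rhoU u p < p) → ∀ i : Fin k,
      c * (√x * densU u (2 * x)) ≤ ((Off u i 3 (x ^ (2 / 25 : ℝ)) ((2 * x) ^ (1 / (t : ℝ))) (ν * Real.log (2 * x)) ⌊√x⌋₊).card : ℝ) :=
  main simC k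

end Pool.Agent.Results.MP_b8a134_nt.EveryPattern
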