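import Pool.Agent.Q197.WN.SchD

/-!
# The real numbers `x` for which `(x, x + c√x)` misses a random set: the exact entropy price of their measure
-/

set_option autoImplicit false

namespace Pool.Agent.Results.MP_b8a134_nt.PriceOfExceptions

open Finset Filter MeasureTheory Pool.Agent.Q197.WN Pool.Agent.Q120.CL Pool.Agent.Q120.TT Pool.Agent.Q120.ET
open scoped Topology

/-- The price, its sharpness and the budget of an exceptional set of measure `m` in a block. -/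
theorem result (z : ℕ → ℕ) (hs : ∀ η : ℝ, 0 < η → ∀ᶠ k : ℕ in atTop, (z k : ℝ) ≤ η * k) (c : ℝ) (hc : 0 < c) :
    (∀ ε : ℝ, 0 < ε → ∀ᶠ k : ℕ in atTop, ∀ (Ω : Type) [MeasurableSpace Ω] (μ : Measure Ω) [IsProbabilityMeasure μ]
      (A : Ω → Set ℕ), IsRandomSet A → (∀ᵐ ω ∂μ, ∀ n ∈ A ω, 0 < pr z n) → ∀ m : ℝ, 0 ≤ m →
        (1 - ε) * toll c k m * μ.real {ω | Miss c k m (A ω)} ≤ 1 + relEnt (pr z) μ A (Bk k)) ∧
    (∀ ε : ℝ, 0 < ε → ε < 1 → ∀ m : ℕ → ℝ, (∀ k, 0 ≤ m k) → (∀ k, m k ≤ (1 - ε) * (3 * 4 ^ k)) → ∀ q : ℕ → ℝ,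
      (∀ k, 0 ≤ q k) → (∀ k, q k ≤ 1) → ∃ (Ω : Type) (_ : MeasurableSpace Ω) (μ : Measure Ω) (_ : IsProbabilityMeasure μ)
        (A : Ω → Set ℕ), Near (pr z) Bk (fun k => (1 + ε) * (q k * toll c k (m k))) μ A ∧
          (∀ᶠ k : ℕ in atTop, q k ≤ μ.real {ω | Miss c k (m k) (A ω)}) ∧
          (¬ Summable q → ∀ᵐ ω ∂μ, ∃ᶠ k : ℕ in atTop, Miss c k (m k) (A ω))) ∧
    (∀ δ : ℝ, 0 < δ → ∀ m : ℕ → ℝ, (∀ k, 0 ≤ m k) → (∀ k, m k ≤ (1 - δ) * (3 * 4 ^ k)) → ∀ d : ℕ → ℝ, (∀ k, 0 ≤ d k) →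
      (Summable (fun k : ℕ => d k * k / (2 ^ k + m k)) ↔ ∀ (Ω : Type) [MeasurableSpace Ω] (μ : Measure Ω)
        [IsProbabilityMeasure μ] (A : Ω → Set ℕ), Near (pr z) Bk d μ A →
          ∀ᵐ ω ∂μ, ∀ᶠ k : ℕ in atTop, ¬ Miss c k (m k) (A ω)) ∧
      (¬ Summable (fun k : ℕ => d k * k / (2 ^ k + m k)) → ∃ (Ω : Type) (_ : MeasurableSpace Ω) (μ : Measure Ω)
        (_ : IsProbabilityMeasure μ) (A : Ω → Set ℕ), Near (pr z) Bk d μ A ∧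
          ∀ᵐ ω ∂μ, ∃ᶠ k : ℕ in atTop, Miss c k (m k) (A ω))) :=
  ⟨fun _ hε => sch_price hs hc hε, fun _ hε hε1 _ hm hmk _ hq0 hq1 => sch_exists hs hc hε hε1 hm hmk hq0 hq1,
    fun _ hδ _ hm hmk _ hd => sch_budget hs hc hδ hm hmk hd⟩

end Pool.Agent.Results.MP_b8a134_nt.PriceOfExceptions
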