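import Pool.Agent.Q106.MD.ShAll

/-!
# MP_b8a134_nt: all constellations in the intervals `(x, x + x^θ)` in the sieved models of the primes

The sieved model of level `Q`: a random set `A` which contains the integers `n` coprime to `Q` independently with
probability `(Q / φ(Q)) / log n` (at most `1`), and no others (`IsModel μ (level Q) A`; `Q = 1` is Cramér's model).
For a finite number of exponents `1 > θ_1 > ... > θ_s > 0` (for instance `θ = 1/2`) and a finite number of different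
constellations `H_1, ..., H_r` consider the matrix of the normalized deviations of the numbers of the constellations in
the intervals `(x, x + x^θ_j)`. Almost surely the set of its limit points is exactly the set of the matrices `d` with
`|d_1|^2 + ... + |d_j|^2 ≤ 1 - θ_j` for all `j`, `d_j = (d_j1, ..., d_jr)`, and every such `d` is approached in each
interval `[X, 8X]`.
-/

set_option autoImplicit false

namespace Pool.Agent.Results.MP_b8a134_nt.ShortIntervalScales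

open Finset MeasureTheory ProbabilityTheory Filter
open scoped Topology
open Pool.Agent.Q120.GM (IsModel level sing)

/-- The number of the `m > x` such that all `m + h`, `h ∈ H`, are elements of `A` below `x + x^θ`. -/
noncomputable def count (A : Set ℕ) (H : Finset ℕ) (θ : ℝ) (x : ℕ) : ℝ :=
  ({m : ℕ | x < m ∧ ∀ h ∈ H, m + h ∈ A ∧ ((m + h : ℕ) : ℝ) < (x : ℝ) + (x : ℝ) ^ θ}.ncard : ℝ)

/-- The predicted number: the singular series of level `Q` times the sum of `1 / (log m)^|H|` over the integers `m`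
with `x < m < x + x^θ`. -/
noncomputable def predicted (Q : ℕ) (H : Finset ℕ) (θ : ℝ) (x : ℕ) : ℝ :=
  sing Q H * ∑ m ∈ Ioo x ⌈(x : ℝ) + (x : ℝ) ^ θ⌉₊, 1 / Real.log m ^ H.card

/-- The normalized deviation. -/
noncomputable def deviation (A : Set ℕ) (Q : ℕ) (H : Finset ℕ) (θ : ℝ) (x : ℕ) : ℝ :=
  (count A H θ x - predicted Q H θ x) / Real.sqrt (2 * predicted Q H θ x * Real.log x)

theorem count_eq {Ω : Type} (A : Ω → Set ℕ) {H : Finset ℕ} (h0 : 0 ∈ H) (θ : ℝ) (x : ℕ) (ω : Ω) :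
    count (A ω) H θ x = Pool.Agent.Q106.UR.nm A (Pool.Agent.Q106.MD.Jx H (x + 1) (Pool.Agent.Q106.MD.pt 1 θ x))
      (fun m => Pool.Agent.Q120.GM.tl m H) ω := by
  unfold count
  rw [Pool.Agent.Q106.UR.nm_card]
  congr 1
  rw [← Set.ncard_coe_finset]
  congr 1
  have h1 : ∀ a : ℕ, a < Pool.Agent.Q106.MD.pt 1 θ x ↔ (a : ℝ) < (x : ℝ) + (x : ℝ) ^ θ := by
    intro a
    unfold Pool.Agent.Q106.MD.pt
    rw [Nat.lt_ceil, one_mul]
  ext m
  rw [Finset.mem_coe, Pool.Agent.Q106.UR.mem_oc]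
  unfold Pool.Agent.Q106.MD.Jx
  rw [mem_filter, mem_Ico]
  constructor
  · rintro ⟨h2, h3⟩
    refine ⟨⟨⟨h2, ?_⟩, ?_⟩, ?_⟩
    · exact (h1 m).2 (h3 0 h0).2
    · obtain ⟨h, hh, he⟩ := Finset.exists_mem_eq_sup H ⟨0, h0⟩ id
      rw [he]
      exact (h1 _).2 (h3 h hh).2
    · intro b hb
      obtain ⟨h, hh, rfl⟩ := Pool.Agent.Q120.GM.mem_tl.1 hb
      exact (h3 h hh).1
  · rintro ⟨⟨⟨h2, _⟩, h3⟩, h4⟩
    refine ⟨h2, fun h hh => ⟨h4 _ (Pool.Agent.Q120.GM.mem_tl.2 ⟨h, hh, rfl⟩), (h1 _).1 ?_⟩⟩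
    have h5 : h ≤ H.sup id := Finset.le_sup (f := id) hh
    omega

theorem deviation_eq {Ω : Type} (A : Ω → Set ℕ) {Q : ℕ} {H : Finset ℕ} (h0 : 0 ∈ H) (θ : ℝ) (x : ℕ) (ω : Ω) :
    deviation (A ω) Q H θ x = Pool.Agent.Q106.MD.Dt Q A H θ x ω := by
  have h1 : predicted Q H θ x = Pool.Agent.Q106.MD.prS Q H θ x := by
    unfold predicted Pool.Agent.Q106.MD.prS Pool.Agent.Q106.MD.li Pool.Agent.Q106.MD.pt
    rw [one_mul]
    rfl
  unfold deviation Pool.Agent.Q106.MD.Dt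
  rw [count_eq A h0 θ x ω, h1]

/-- **The multi-scale law for short intervals.** -/
theorem result {Ω : Type} [MeasurableSpace Ω] {μ : Measure Ω} [IsProbabilityMeasure μ] {A : Ω → Set ℕ} {Q : ℕ}
    (hQ : 1 ≤ Q) (hA : IsModel μ (level Q) A) {s : ℕ} {θ : Fin s → ℝ} (hθ : StrictAnti θ)
    (h01 : ∀ j, 0 < θ j ∧ θ j < 1) :
    ∀ᵐ ω ∂μ, ∀ (r : ℕ) (H : Fin r → Finset ℕ), Function.Injective H → (∀ i, 0 ∈ H i ∧ 0 < sing Q (H i)) →
      (∀ j, ∀ ε > 0, ∀ᶠ x : ℕ in atTop, ∑ j' ∈ Iic j, ∑ i, deviation (A ω) Q (H i) (θ j') x ^ 2 ≤ 1 - θ j + ε) ∧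
      ∀ d : Fin s → Fin r → ℝ, (∀ j, ∑ j' ∈ Iic j, ∑ i, d j' i ^ 2 ≤ 1 - θ j) → ∀ ε > 0, ∀ᶠ X : ℕ in atTop,
        ∃ x : ℕ, X ≤ x ∧ x ≤ 8 * X ∧ ∀ j i, |deviation (A ω) Q (H i) (θ j) x - d j i| < ε := by
  filter_upwards [Pool.Agent.Q106.MD.multi_all hA hQ hθ (fun j => (h01 j).1) (fun j => (h01 j).2)] with ω hω r H hH h0
  obtain ⟨h1, h2⟩ := hω r H hH (fun i => (h0 i).1) (fun i => (h0 i).2)
  have h3 : ∀ i t x, deviation (A ω) Q (H i) t x = Pool.Agent.Q106.MD.Dt Q A (H i) t x ω :=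
    fun i t x => deviation_eq A (h0 i).1 t x ω
  simp only [h3]
  refine ⟨h1, fun d hd ε hε => ?_⟩
  obtain ⟨N, hN⟩ := eventually_atTop.1 (h2 d hd ε hε)
  filter_upwards [eventually_ge_atTop (2 ^ N), eventually_ge_atTop 1] with X hX hX1
  obtain ⟨x, hx1, hx2, hx3⟩ := hN (Nat.log 2 X + 1) (by
    have := (Nat.le_log_iff_pow_le (by norm_num : 1 < 2) (by omega : X ≠ 0)).2 hX
    omega)
  refine ⟨x, ?_, ?_, hx3⟩
  · exact (Nat.lt_pow_succ_log_self (by norm_num) X).le.trans hx1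
  · have h4 := Nat.pow_log_le_self 2 (show X ≠ 0 by omega)
    have h5 : 2 ^ (Nat.log 2 X + 1 + 2) = 8 * 2 ^ Nat.log 2 X := by ring
    omega

end Pool.Agent.Results.MP_b8a134_nt.ShortIntervalScales
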