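import Pool.Agent.Q253.P3.Thin

/-!
# Primes between `x` and `x + √x`: one thin set of prime factors

There is ONE set `Q` of primes with `O(log ^ 2 x)` elements up to `x` such that for EVERY large real `x` there is a prime, or a
number `q m` with `q ∈ Q` and `m` a prime or a product of two primes, strictly between `x` and `x + √x`.

Libraries (starting files): the weighted linear sieve `Y882.KW`, `W378.DC.MP`.
-/

set_option autoImplicit false

namespace Pool.Agent.Results.MP_b8a134_nt.ThinFactors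

open Finset
open Pool.Agent.Q253.P3

lemma small {m : ℕ} (h2 : 2 ≤ m) (h : m.primeFactorsList.length ≤ 2) :
    m.Prime ∨ ∃ a b : ℕ, a.Prime ∧ b.Prime ∧ m = a * b := by
  have hprod := Nat.prod_primeFactorsList (show m ≠ 0 by omega)
  rcases hl : m.primeFactorsList with _ | ⟨a, _ | ⟨b, _ | ⟨c, l⟩⟩⟩
  · rw [hl] at hprod
    simp at hprod
    omega
  · left
    have ha : a.Prime := Nat.prime_of_mem_primeFactorsList (n := m) (by rw [hl]; simp)
    rw [hl] at hprod
    simp at hprod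
    rwa [← hprod]
  · right
    have ha : a.Prime := Nat.prime_of_mem_primeFactorsList (n := m) (by rw [hl]; simp)
    have hb : b.Prime := Nat.prime_of_mem_primeFactorsList (n := m) (by rw [hl]; simp)
    rw [hl] at hprod
    refine ⟨a, b, ha, hb, ?_⟩
    simp at hprod
    exact hprod.symm
  · rw [hl] at h
    simp at h

/-- **Primes between `x` and `x + √x`.** There are a constant `C > 0` and a set `Q` of primes with at most `C log ^ 2 x` elements up
to `x`, for every `x ≥ 2`, such that for EVERY real `x ≥ x₀` there is an integer `n` with `x < n < x + √x` which is a prime or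
a product `q m` of a `q ∈ Q` and a number `m` which is a prime or a product of two primes; `n` has no prime factor below
`x ^ (39/400)`. -/
theorem result : ∃ C : ℝ, 0 < C ∧ ∃ Q : Set ℕ, (∀ q ∈ Q, q.Prime) ∧
    (∀ x : ℕ, 2 ≤ x → {q ∈ Q | q ≤ x}.Finite ∧ ({q ∈ Q | q ≤ x}.ncard : ℝ) ≤ C * Real.log x ^ 2) ∧
    ∃ x₀ : ℝ, ∀ x : ℝ, x₀ ≤ x → ∃ n : ℕ, x < n ∧ (n : ℝ) < x + Real.sqrt x ∧
      (∀ p : ℕ, p.Prime → p ∣ n → x ^ (39 / 400 : ℝ) ≤ p) ∧
      (n.Prime ∨ ∃ q ∈ Q, ∃ m : ℕ, n = q * m ∧ (m.Prime ∨ ∃ a b : ℕ, a.Prime ∧ b.Prime ∧ m = a * b)) := by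
  classical
  obtain ⟨C, hC, Q, hQ, hQc, X₀, h⟩ := thin3
  refine ⟨C, hC, Q, hQ, ?_, max X₀ 16, ?_⟩
  · intro x hx
    obtain ⟨S, hS1, hS2⟩ := hQc x hx
    have hsub : {q ∈ Q | q ≤ x} ⊆ (S : Set ℕ) := fun q hq => hS1 q hq.1 hq.2
    refine ⟨S.finite_toSet.subset hsub, ?_⟩
    refine le_trans ?_ hS2
    have := Set.ncard_le_ncard hsub S.finite_toSet
    rw [Set.ncard_coe_finset] at this
    exact_mod_cast this
  · intro x hx
    have hx1 : (X₀ : ℝ) ≤ x := (le_max_left _ _).trans hx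
    have hx2 : (16 : ℝ) ≤ x := (le_max_right _ _).trans hx
    have hx0 : 0 ≤ x := by linarith
    set A : ℕ := ⌊x⌋₊ with hA
    have hA1 : 16 ≤ A := Nat.le_floor (by exact_mod_cast hx2)
    have hA2 : X₀ ≤ A := Nat.le_floor hx1
    have hs : 4 ≤ Nat.sqrt A := by
      rw [Nat.le_sqrt']
      omega
    have hsA : Nat.sqrt A ≤ A := Nat.sqrt_le_self A
    obtain ⟨n, hn, hcase⟩ := h (A + (Nat.sqrt A - 1)) (by omega) A (Nat.sqrt A - 1) rfl (by omega) (by omega)
    unfold G3 at hn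
    rw [mem_filter, mem_Ioc] at hn
    obtain ⟨⟨a1, a2⟩, a3, a4⟩ := hn
    have hfl : x < A + 1 := Nat.lt_floor_add_one x
    have hfl2 : (A : ℝ) ≤ x := Nat.floor_le hx0
    have hn1 : (A : ℝ) + 1 ≤ n := by exact_mod_cast a1
    have hsq : ((Nat.sqrt A : ℕ) : ℝ) ≤ Real.sqrt x := by
      apply Real.le_sqrt_of_sq_le
      refine le_trans ?_ hfl2
      exact_mod_cast Nat.sqrt_le' A
    have hn2 : (n : ℝ) ≤ A + (Nat.sqrt A - 1) := by
      have h1 : n + 1 ≤ A + Nat.sqrt A := by omega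
      have h2 : (n : ℝ) + 1 ≤ A + Nat.sqrt A := by exact_mod_cast h1
      linarith
    refine ⟨n, by linarith, by linarith, ?_, ?_⟩
    · intro p hp hpn
      refine le_trans ?_ (a4 p hp hpn)
      apply Real.rpow_le_rpow hx0 _ (by norm_num)
      have h1 : A + 1 ≤ A + (Nat.sqrt A - 1) := by omega
      have h2 : (A : ℝ) + 1 ≤ ((A + (Nat.sqrt A - 1) : ℕ) : ℝ) := by exact_mod_cast h1
      linarith
    · rcases hcase with hp | ⟨q, hq, m, hm, hqm, hml⟩
      · exact Or.inl hp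
      · have hq2 := (hQ q hq).two_le
        exact Or.inr ⟨q, hq, m, hm, small (hq2.trans hqm) hml⟩

end Pool.Agent.Results.MP_b8a134_nt.ThinFactors
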